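import Mathlib
import Pool.Agent.Helper99.BK.Stmts

set_option autoImplicit false

/-! # The size function of a complex cubic field: lower bound, coordinates, torsion part -/

namespace Pool.Helper99.BK

open NumberField

lemma gca_zpow {K : Type} [Field K] [NumberField K] (ε : (𝓞 K)ˣ) (m : ℤ) :
    (((ε ^ m : (𝓞 K)ˣ) : 𝓞 K) : K) = ((ε : 𝓞 K) : K) ^ m :=
  NumberField.Units.coe_zpow ε m

lemma gca_gel {K : Type} [Field K] [NumberField K] (π : 𝓞 K) (ε : (𝓞 K)ˣ) (p : Fin 3 → ℤ) :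
    gel π ε 1 p = (π : K) ^ (p 0) * (((ε ^ (p 1) : (𝓞 K)ˣ) : 𝓞 K) : K) := by
  unfold gel
  have h : (((1 : (𝓞 K)ˣ) : 𝓞 K) : K) = 1 := rfl
  rw [h, one_zpow, mul_one, gca_zpow]

lemma gca_norm_ne {K : Type} [Field K] [NumberField K] (σ : K →+* ℂ) (ε : (𝓞 K)ˣ) :
    ‖σ ((ε : 𝓞 K) : K)‖ ≠ 0 := by
  rw [norm_ne_zero_iff]
  intro h
  have h1 : ((ε : 𝓞 K) : K) = 0 := (map_eq_zero σ).1 h
  exact NumberField.Units.coe_ne_zero ε h1

lemma gca_log {K : Type} [Field K] [NumberField K] (σ : K →+* ℂ) (π : 𝓞 K) (hπ : π ≠ 0)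
    (ε : (𝓞 K)ˣ) (p : Fin 3 → ℤ) :
    Real.log ‖σ (gel π ε 1 p)‖ = (p 0 : ℝ) * Real.log ‖σ (π : K)‖ +
      Real.log ‖σ (((ε ^ (p 1) : (𝓞 K)ˣ) : 𝓞 K) : K)‖ := by
  have hπ' : ‖σ (π : K)‖ ≠ 0 := by
    rw [norm_ne_zero_iff]
    intro h
    apply hπ
    have h1 : (π : K) = 0 := (map_eq_zero σ).1 h
    exact_mod_cast h1
  rw [gca_gel, map_mul, norm_mul, Real.log_mul, map_zpow₀, norm_zpow, Real.log_zpow]
  · rw [map_zpow₀, norm_zpow]
    exact zpow_ne_zero _ hπ'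
  · exact gca_norm_ne σ _

lemma gca_part {K : Type} [Field K] [NumberField K] (σ : Fin 3 → (K →+* ℂ)) (π : 𝓞 K)
    (ε : (𝓞 K)ˣ) (lam : Fin 3 → ℂ) (A : ℝ) (hA : 1 ≤ A) (p : Fin 3 → ℤ) :
    (∀ i, 4 * |Real.log ‖σ i (gel π ε 1 p)‖| ≤ nrm σ π ε 1 A lam p) ∧
    |(p 0 : ℝ)| ≤ nrm σ π ε 1 A lam p ∧
    ‖∑ i, ((p i : ℤ) : ℂ) * lam i‖ ≤ nrm σ π ε 1 A lam p ∧ 0 ≤ nrm σ π ε 1 A lam p := by
  unfold nrm
  have h1 : ∀ i, |Real.log ‖σ i (gel π ε 1 p)‖| ≤ ∑ i, |Real.log ‖σ i (gel π ε 1 p)‖| := fun i =>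
    Finset.single_le_sum (f := fun i => |Real.log ‖σ i (gel π ε 1 p)‖|)
      (fun j _ => abs_nonneg _) (Finset.mem_univ i)
  have h2 : 0 ≤ ∑ i, |Real.log ‖σ i (gel π ε 1 p)‖| :=
    Finset.sum_nonneg (fun i _ => abs_nonneg _)
  have h3 : |(p 0 : ℝ)| ≤ A * |(p 0 : ℝ)| := by nlinarith [abs_nonneg (p 0 : ℝ)]
  have h4 := norm_nonneg (∑ i, ((p i : ℤ) : ℂ) * lam i)
  have h5 := abs_nonneg (p 0 : ℝ)
  refine ⟨fun i => ?_, ?_, ?_, ?_⟩
  · have := h1 i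
    linarith
  · linarith
  · linarith
  · linarith

/-- integers in an interval -/
lemma gca_Icc (x y : ℝ) (h : x ≤ y + 1) : ((Finset.Icc ⌈x⌉ ⌊y⌋).card : ℝ) ≤ y - x + 1 := by
  rw [Int.card_Icc]
  rcases le_or_gt 0 (⌊y⌋ + 1 - ⌈x⌉) with h0 | h0
  · have h1 : ((⌊y⌋ + 1 - ⌈x⌉).toNat : ℝ) = ((⌊y⌋ + 1 - ⌈x⌉ : ℤ) : ℝ) := by
      have : ((⌊y⌋ + 1 - ⌈x⌉).toNat : ℤ) = ⌊y⌋ + 1 - ⌈x⌉ := Int.toNat_of_nonneg h0
      exact_mod_cast this
    rw [h1]
    push_cast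
    have h2 := Int.floor_le y
    have h3 := Int.le_ceil x
    linarith
  · rw [Int.toNat_of_nonpos h0.le]
    simp
    linarith

theorem st_GCa (hKER : ST_KER) (hEMB : ST_EMB3) : ST_GCa := by
  intro c hc
  refine ⟨min 1 (4 * c), 2 + 1 / c, lt_min one_pos (by positivity), ?_, ?_⟩
  · have : 0 < 1 / c := by positivity
    linarith
  intro K _ _ hK σ hσ π hπ ε hU θ lam A S hθ hA hl0 hl1 hl2 hS
  have hpi : (3 : ℝ) < Real.pi := Real.pi_gt_three
  have hsig : ∀ τ : K →+* ℂ, ∃ i, τ = σ i := (hEMB K hK σ hσ).1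
  have hsum3 : ∀ p : Fin 3 → ℤ, ∑ i, ((p i : ℤ) : ℂ) * lam i =
      (p 0 : ℂ) * lam 0 + (p 1 : ℂ) * lam 1 + (p 2 : ℂ) * lam 2 := fun p => Fin.sum_univ_three _
  have hn2 : ‖(2 * Real.pi * Complex.I : ℂ)‖ = 2 * Real.pi := by
    rw [norm_mul, norm_mul, Complex.norm_I, mul_one, Complex.norm_real, Real.norm_eq_abs,
      abs_of_pos Real.pi_pos]
    simp
  have hint1 : ∀ a : ℤ, a ≠ 0 → (1 : ℝ) ≤ |(a : ℝ)| := by
    intro a ha
    have := Int.one_le_abs ha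
    exact_mod_cast this
  have hS0 : 0 ≤ S := (abs_nonneg _).trans (hS 0)
  -- bound for `p 1`
  have hp1 : ∀ p : Fin 3 → ℤ, c * |(p 1 : ℝ)| ≤
      nrm σ π ε 1 A lam p / 4 + |(p 0 : ℝ)| * S := by
    intro p
    obtain ⟨τ, hτ⟩ := hU.2 (p 1)
    obtain ⟨i, rfl⟩ := hsig τ
    obtain ⟨h1, _, _, _⟩ := gca_part σ π ε lam A hA p
    have h2 := h1 i
    have h3 := gca_log (σ i) π hπ ε p
    have h4 : Real.log ‖σ i (((ε ^ (p 1) : (𝓞 K)ˣ) : 𝓞 K) : K)‖ =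
        Real.log ‖σ i (gel π ε 1 p)‖ - (p 0 : ℝ) * Real.log ‖σ i (π : K)‖ := by
      rw [h3]; ring
    have h5 : |Real.log ‖σ i (((ε ^ (p 1) : (𝓞 K)ˣ) : 𝓞 K) : K)‖| ≤
        |Real.log ‖σ i (gel π ε 1 p)‖| + |(p 0 : ℝ)| * |Real.log ‖σ i (π : K)‖| := by
      rw [h4, ← abs_mul]
      exact abs_sub _ _
    have h6 : |(p 0 : ℝ)| * |Real.log ‖σ i (π : K)‖| ≤ |(p 0 : ℝ)| * S :=
      mul_le_mul_of_nonneg_left (hS i) (abs_nonneg _)
    linarith
  refine ⟨?_, ?_, ?_⟩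
  · -- lower bound
    intro p hp
    obtain ⟨h1, h2, h3, h4⟩ := gca_part σ π ε lam A hA p
    by_cases h0 : p 0 = 0
    · by_cases h10 : p 1 = 0
      · have h20 : p 2 ≠ 0 := by
          intro h20
          apply hp
          funext i
          fin_cases i
          · exact h0
          · exact h10
          · exact h20
        rw [hsum3, h0, h10, hl2] at h3
        simp only [Int.cast_zero, zero_mul, zero_add] at h3
        rw [norm_mul, hn2, Complex.norm_intCast] at h3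
        have h5 := hint1 _ h20
        have h6 : min 1 (4 * c) ≤ 1 := min_le_left _ _
        nlinarith
      · have h5 := hp1 p
        rw [h0] at h5
        simp only [Int.cast_zero, abs_zero, zero_mul, add_zero] at h5
        have h6 := hint1 _ h10
        have h7 : min 1 (4 * c) ≤ 4 * c := min_le_right _ _
        nlinarith
    · have h5 := hint1 _ h0
      have h6 : min 1 (4 * c) ≤ 1 := min_le_left _ _
      linarith
  · -- coordinates
    intro p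
    obtain ⟨h1, h2, h3, h4⟩ := gca_part σ π ε lam A hA p
    set N := nrm σ π ε 1 A lam p with hN
    have h5 := hp1 p
    have h6 : |(p 1 : ℝ)| ≤ 1 / c * ((1 + S) * N) := by
      rw [one_div, inv_mul_eq_div, le_div_iff₀ hc]
      have : |(p 0 : ℝ)| * S ≤ N * S := mul_le_mul_of_nonneg_right h2 hS0
      nlinarith
    have h7 : |(p 2 : ℝ)| ≤ N + |(p 0 : ℝ)| + |(p 1 : ℝ)| := by
      have h8 : (p 2 : ℂ) * lam 2 = (∑ i, ((p i : ℤ) : ℂ) * lam i) - (p 0 : ℂ) * lam 0 -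
          (p 1 : ℂ) * lam 1 := by
        rw [hsum3]; ring
      have h9 : ‖(p 2 : ℂ) * lam 2‖ ≤ N + |(p 0 : ℝ)| * (2 * Real.pi) +
          |(p 1 : ℝ)| * (2 * Real.pi) := by
        rw [h8]
        have e1 : ‖(p 0 : ℂ) * lam 0‖ ≤ |(p 0 : ℝ)| * (2 * Real.pi) := by
          rw [norm_mul, Complex.norm_intCast]
          exact mul_le_mul_of_nonneg_left hl0 (abs_nonneg _)
        have e2 : ‖(p 1 : ℂ) * lam 1‖ ≤ |(p 1 : ℝ)| * (2 * Real.pi) := by
          rw [norm_mul, Complex.norm_intCast]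
          exact mul_le_mul_of_nonneg_left hl1 (abs_nonneg _)
        have e3 := norm_sub_le ((∑ i, ((p i : ℤ) : ℂ) * lam i) - (p 0 : ℂ) * lam 0)
          ((p 1 : ℂ) * lam 1)
        have e4 := norm_sub_le (∑ i, ((p i : ℤ) : ℂ) * lam i) ((p 0 : ℂ) * lam 0)
        linarith
      rw [norm_mul, hl2, hn2, Complex.norm_intCast] at h9
      have h10 : |(p 2 : ℝ)| * (2 * Real.pi) ≤
          (N + |(p 0 : ℝ)| + |(p 1 : ℝ)|) * (2 * Real.pi) := by
        nlinarith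
      exact le_of_mul_le_mul_right h10 (by positivity)
    have h8 : N ≤ (1 + S) * N := by nlinarith
    have h9 : (2 + 1 / c) * (1 + S) * N = 2 * ((1 + S) * N) + 1 / c * ((1 + S) * N) := by ring
    have h10 : 0 ≤ 1 / c * ((1 + S) * N) := by positivity
    have h11 : 0 ≤ (1 + S) * N := by positivity
    rw [h9]
    intro i
    fin_cases i
    · show |(p 0 : ℝ)| ≤ _
      linarith
    · show |(p 1 : ℝ)| ≤ _
      linarith
    · show |(p 2 : ℝ)| ≤ _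
      linarith
  · -- the torsion part
    intro ρ hρ
    set T : Set (Fin 3 → ℤ) := {p : Fin 3 → ℤ | nrm σ π ε 1 A lam p ≤ ρ ∧
        (θ ^ (p 0) * (σ 1 (gel π ε 1 p) / σ 2 (gel π ε 1 p))) ^ 2 = 1} with hT
    have hσ12 : σ 1 ≠ σ 2 := fun h => by
      have := hσ h
      exact absurd this (by decide)
    have huniq : ∀ p ∈ T, ∀ p' ∈ T, p 0 = p' 0 → p 1 = p' 1 := by
      intro p hp p' hp' h0
      have e1 := hp.2
      have e2 := hp'.2
      rw [gca_gel] at e1 e2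
      rw [← h0] at e2
      have hπ' : ∀ τ : K →+* ℂ, τ ((π : K) ^ (p 0)) ≠ 0 := by
        intro τ h
        have h1 : (π : K) ^ (p 0) = 0 := (map_eq_zero τ).1 h
        have h2 : (π : K) = 0 := by
          by_contra h3
          exact zpow_ne_zero _ h3 h1
        exact hπ (by exact_mod_cast h2)
      have hun : ∀ (τ : K →+* ℂ) (m : ℤ), τ (((ε ^ m : (𝓞 K)ˣ) : 𝓞 K) : K) ≠ 0 := by
        intro τ m
        exact norm_ne_zero_iff.1 (gca_norm_ne τ _)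
      have e3 : (σ 1 (((ε ^ (p 1 - p' 1) : (𝓞 K)ˣ) : 𝓞 K) : K) /
          σ 2 (((ε ^ (p 1 - p' 1) : (𝓞 K)ˣ) : 𝓞 K) : K)) ^ 2 = 1 := by
        have e4 : ∀ τ : K →+* ℂ, τ (((ε ^ (p 1 - p' 1) : (𝓞 K)ˣ) : 𝓞 K) : K) =
            τ (((ε ^ (p 1) : (𝓞 K)ˣ) : 𝓞 K) : K) / τ (((ε ^ (p' 1) : (𝓞 K)ˣ) : 𝓞 K) : K) := by
          intro τ
          rw [← map_div₀]
          congr 1
          rw [gca_zpow, gca_zpow, gca_zpow, zpow_sub₀ (NumberField.Units.coe_ne_zero ε)]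
        rw [e4, e4]
        rw [map_mul, map_mul] at e1 e2
        have a1 := hun (σ 1) (p 1)
        have a2 := hun (σ 2) (p 1)
        have a3 := hun (σ 1) (p' 1)
        have a4 := hun (σ 2) (p' 1)
        have a5 := hπ' (σ 1)
        have a6 := hπ' (σ 2)
        have a7 : θ ^ (p 0) ≠ 0 := zpow_ne_zero _ hθ
        calc (σ 1 (((ε ^ (p 1) : (𝓞 K)ˣ) : 𝓞 K) : K) / σ 1 (((ε ^ (p' 1) : (𝓞 K)ˣ) : 𝓞 K) : K) /
            (σ 2 (((ε ^ (p 1) : (𝓞 K)ˣ) : 𝓞 K) : K) /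
              σ 2 (((ε ^ (p' 1) : (𝓞 K)ˣ) : 𝓞 K) : K))) ^ 2
            = (θ ^ (p 0) * (σ 1 ((π : K) ^ (p 0)) * σ 1 (((ε ^ (p 1) : (𝓞 K)ˣ) : 𝓞 K) : K) /
                (σ 2 ((π : K) ^ (p 0)) * σ 2 (((ε ^ (p 1) : (𝓞 K)ˣ) : 𝓞 K) : K)))) ^ 2 /
              (θ ^ (p 0) * (σ 1 ((π : K) ^ (p 0)) * σ 1 (((ε ^ (p' 1) : (𝓞 K)ˣ) : 𝓞 K) : K) /
                (σ 2 ((π : K) ^ (p 0)) * σ 2 (((ε ^ (p' 1) : (𝓞 K)ˣ) : 𝓞 K) : K)))) ^ 2 := by
              field_simp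
          _ = 1 := by rw [e1, e2, div_one]
      have e5 := (hKER K hK (σ 1) (σ 2) hσ12).2 _ e3
      obtain ⟨τ, hτ⟩ := hU.2 (p 1 - p' 1)
      have e6 : |Real.log ‖τ (((ε ^ (p 1 - p' 1) : (𝓞 K)ˣ) : 𝓞 K) : K)‖| = 0 := by
        rcases e5 with e5 | e5
        · rw [e5]
          have : (((1 : (𝓞 K)ˣ) : 𝓞 K) : K) = 1 := rfl
          rw [this, map_one, norm_one, Real.log_one, abs_zero]
        · rw [e5]
          have : (((-1 : (𝓞 K)ˣ) : 𝓞 K) : K) = -1 := NumberField.Units.coe_neg_one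
          rw [this, map_neg, map_one, norm_neg, norm_one, Real.log_one, abs_zero]
      rw [e6] at hτ
      by_contra hne
      have e7 := hint1 _ (sub_ne_zero.2 hne)
      nlinarith
    classical
    -- choose the value of `p 1`
    let P1 : ℤ → ℤ := fun a => if h : ∃ p ∈ T, p 0 = a then h.choose 1 else 0
    have hP1 : ∀ p ∈ T, p 1 = P1 (p 0) := by
      intro p hp
      have hex : ∃ q ∈ T, q 0 = p 0 := ⟨p, hp, rfl⟩
      have h1 : P1 (p 0) = hex.choose 1 := dif_pos hex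
      rw [h1]
      exact huniq p hp _ hex.choose_spec.1 hex.choose_spec.2.symm
    let w : ℤ → ℝ := fun a => ((a : ℂ) * lam 0 + (P1 a : ℂ) * lam 1).im
    let lo : ℤ → ℝ := fun a => (-ρ - w a) / (2 * Real.pi)
    let hi : ℤ → ℝ := fun a => (ρ - w a) / (2 * Real.pi)
    let F : Finset (Fin 3 → ℤ) := (Finset.Icc ⌈-ρ⌉ ⌊ρ⌋).biUnion (fun a =>
      (Finset.Icc ⌈lo a⌉ ⌊hi a⌋).image (fun b => ![a, P1 a, b]))
    have hTF : T ⊆ (F : Set (Fin 3 → ℤ)) := by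
      intro p hp
      obtain ⟨h1, h2, h3, h4⟩ := gca_part σ π ε lam A hA p
      have hρ' := hp.1
      rw [Finset.mem_coe, Finset.mem_biUnion]
      refine ⟨p 0, ?_, ?_⟩
      · rw [Finset.mem_Icc, Int.ceil_le, Int.le_floor]
        exact abs_le.1 (h2.trans hρ')
      · rw [Finset.mem_image]
        refine ⟨p 2, ?_, ?_⟩
        · have h5 : |((p 0 : ℂ) * lam 0 + (p 1 : ℂ) * lam 1 + (p 2 : ℂ) * lam 2).im| ≤ ρ := by
            refine (Complex.abs_im_le_norm _).trans ?_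
            rw [← hsum3]
            exact h3.trans hρ'
          have h6 : ((p 0 : ℂ) * lam 0 + (p 1 : ℂ) * lam 1 + (p 2 : ℂ) * lam 2).im =
              w (p 0) + (p 2 : ℝ) * (2 * Real.pi) := by
            show _ = ((p 0 : ℂ) * lam 0 + (P1 (p 0) : ℂ) * lam 1).im + _
            rw [Complex.add_im, ← hP1 p hp, hl2]
            congr 1
            simp
          rw [h6] at h5
          obtain ⟨h7, h8⟩ := abs_le.1 h5
          rw [Finset.mem_Icc, Int.ceil_le, Int.le_floor]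
          constructor
          · show (-ρ - w (p 0)) / (2 * Real.pi) ≤ _
            rw [div_le_iff₀ (by positivity)]
            linarith
          · show _ ≤ (ρ - w (p 0)) / (2 * Real.pi)
            rw [le_div_iff₀ (by positivity)]
            linarith
        · funext i
          fin_cases i
          · rfl
          · exact (hP1 p hp).symm
          · rfl
    have hcard : (F.card : ℝ) ≤ (2 * ρ + 1) * (ρ + 1) := by
      have hlen : ∀ a, hi a - lo a = ρ / Real.pi := by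
        intro a
        show (ρ - w a) / (2 * Real.pi) - (-ρ - w a) / (2 * Real.pi) = ρ / Real.pi
        field_simp
        ring
      have hρπ : ρ / Real.pi ≤ ρ := by
        rw [div_le_iff₀ Real.pi_pos]
        nlinarith
      have hρπ0 : 0 ≤ ρ / Real.pi := by positivity
      calc (F.card : ℝ) ≤ ((∑ a ∈ Finset.Icc ⌈-ρ⌉ ⌊ρ⌋,
            ((Finset.Icc ⌈lo a⌉ ⌊hi a⌋).image (fun b => ![a, P1 a, b])).card : ℕ) : ℝ) := by
            exact_mod_cast Finset.card_biUnion_le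
        _ ≤ ∑ _a ∈ Finset.Icc ⌈-ρ⌉ ⌊ρ⌋, (ρ + 1) := by
            push_cast
            refine Finset.sum_le_sum (fun a _ => ?_)
            have h1 : (((Finset.Icc ⌈lo a⌉ ⌊hi a⌋).image (fun b => ![a, P1 a, b])).card : ℝ) ≤
                ((Finset.Icc ⌈lo a⌉ ⌊hi a⌋).card : ℝ) := by
              exact_mod_cast Finset.card_image_le
            have h2 := gca_Icc (lo a) (hi a) (by linarith [hlen a])
            linarith [hlen a]
        _ = ((Finset.Icc ⌈-ρ⌉ ⌊ρ⌋).card : ℝ) * (ρ + 1) := by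
            rw [Finset.sum_const, nsmul_eq_mul]
        _ ≤ (2 * ρ + 1) * (ρ + 1) := by
            have h3 := gca_Icc (-ρ) ρ (by linarith)
            exact mul_le_mul_of_nonneg_right (by linarith) (by linarith)
    have hfin : (T.ncard : ℝ) ≤ (F.card : ℝ) := by
      have h1 : T.ncard ≤ (F : Set (Fin 3 → ℤ)).ncard :=
        Set.ncard_le_ncard hTF (Finset.finite_toSet F)
      rw [Set.ncard_coe_finset] at h1
      exact_mod_cast h1
    calc (T.ncard : ℝ) ≤ (2 * ρ + 1) * (ρ + 1) := hfin.trans hcard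
      _ ≤ 4 * (ρ + 1) ^ 2 := by nlinarith

end Pool.Helper99.BK
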