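import Mathlib
import Pool.Agent.Helper99.BK.Stmts

set_option autoImplicit false

/-! # The reducible case -/

namespace Pool.Helper99.BK

theorem st_RDC : ST_RDC := by
  intro x y d n h1 hd h2
  have h3 : 4 * d = (n ^ 2 - x) ^ 2 * (n ^ 2 - 4 * x) := by
    have h4 : 2 * y = 3 * x * n - n ^ 3 := by linarith
    have h5 : 4 * d = (2 * y) ^ 2 - 4 * x ^ 3 := by linarith
    rw [h5, h4]
    ring
  have ha : n ^ 2 - x ≠ 0 := by
    intro h
    rw [h] at h3
    apply hd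
    linarith
  have hb : n ^ 2 - 4 * x ≠ 0 := by
    intro h
    rw [h] at h3
    apply hd
    linarith
  have ha1 : 1 ≤ |n ^ 2 - x| := Int.one_le_abs ha
  have hb1 : 1 ≤ |n ^ 2 - 4 * x| := Int.one_le_abs hb
  have h6 : 4 * |d| = |n ^ 2 - x| ^ 2 * |n ^ 2 - 4 * x| := by
    rw [← abs_pow, ← abs_mul, ← h3, abs_mul]
    norm_num
  have h7 : |n ^ 2 - 4 * x| ≤ 4 * |d| := by
    rw [h6]
    have h : 1 ≤ |n ^ 2 - x| ^ 2 := one_le_pow₀ ha1
    exact le_mul_of_one_le_left (abs_nonneg _) h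
  have h8 : |n ^ 2 - x| ≤ 4 * |d| := by
    rw [h6]
    have : |n ^ 2 - x| ≤ |n ^ 2 - x| ^ 2 := by nlinarith
    nlinarith
  have h9 : |3 * x| ≤ |n ^ 2 - x| + |n ^ 2 - 4 * x| := by
    have : 3 * x = (n ^ 2 - x) - (n ^ 2 - 4 * x) := by ring
    rw [this]
    exact abs_sub _ _
  have h10 : |x| ≤ 100 * |d| := by
    rw [abs_mul] at h9
    have : |(3 : ℤ)| = 3 := by norm_num
    rw [this] at h9
    have := abs_nonneg x
    have := abs_nonneg d
    linarith
  exact_mod_cast h10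

end Pool.Helper99.BK
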